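/-
Module SB-A of the SB project (MP_f4492a_gt): small perturbations of the vertices give equivalent
knots.  helper80.
-/
import Pool.Agent.helper82.SB.Shared

set_option autoImplicit false

namespace Pool.Agent.helper82.SB

open Matrix Filter Topology

namespace SBA

theorem per_mul {n : ℕ} {P : ℤ → E3} (h : ∀ i, P (i + n) = P i) (i q : ℤ) : P (i + q * n) = P i := by
  have h1 : Function.Periodic P (n : ℤ) := h
  exact h1.int_mul q i

/-- reduce an index modulo `n` -/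
theorem red {n : ℕ} (hn : 3 ≤ n) (i : ℤ) : ∃ q : ℤ, ∃ m : ℕ, m < n ∧ i = (m : ℤ) + q * n := by
  have hn0 : (0 : ℤ) < n := by omega
  refine ⟨i / n, (i % n).toNat, ?_, ?_⟩
  · have := Int.emod_lt_of_pos i hn0
    have := Int.emod_nonneg i hn0.ne'
    omega
  · rw [Int.toNat_of_nonneg (Int.emod_nonneg i hn0.ne')]
    have := Int.emod_add_mul_ediv i n
    linarith [mul_comm (n : ℤ) (i / n)]

theorem isClosed_sameRay : IsClosed {p : E3 × E3 | SameRay ℝ p.1 p.2} := by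
  have : {p : E3 × E3 | SameRay ℝ p.1 p.2} = {p : E3 × E3 | ‖p.1‖ • p.2 = ‖p.2‖ • p.1} := by
    ext p
    exact sameRay_iff_norm_smul_eq
  rw [this]
  exact isClosed_eq (by fun_prop) (by fun_prop)

theorem corner_eps (a b c : E3) (h : ¬ SameRay ℝ (a - b) (c - b)) :
    ∃ ε : ℝ, 0 < ε ∧ ∀ a' b' c' : E3, ‖a' - a‖ < ε → ‖b' - b‖ < ε → ‖c' - c‖ < ε →
      ¬ SameRay ℝ (a' - b') (c' - b') := by
  have hopen : IsOpen {p : E3 × E3 × E3 | ¬ SameRay ℝ (p.1 - p.2.1) (p.2.2 - p.2.1)} := by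
    have h1 : IsOpen {p : E3 × E3 | SameRay ℝ p.1 p.2}ᶜ := isClosed_sameRay.isOpen_compl
    exact h1.preimage (f := fun p : E3 × E3 × E3 => (p.1 - p.2.1, p.2.2 - p.2.1)) (by fun_prop)
  obtain ⟨ε, hε, hb⟩ := Metric.isOpen_iff.1 hopen (a, b, c) h
  refine ⟨ε, hε, fun a' b' c' h1 h2 h3 => ?_⟩
  have : (a', b', c') ∈ Metric.ball (a, b, c) ε := by
    rw [Metric.mem_ball, Prod.dist_eq, Prod.dist_eq, dist_eq_norm, dist_eq_norm, dist_eq_norm]
    exact max_lt h1 (max_lt h2 h3)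
  exact hb this

theorem isCompact_seg (a b : E3) : IsCompact (segment ℝ a b) := by
  rw [segment_eq_image]
  exact isCompact_Icc.image (by fun_prop)

theorem seg_thick {a b a' b' : E3} {ε : ℝ} (h1 : ‖a' - a‖ < ε) (h2 : ‖b' - b‖ < ε) :
    segment ℝ a' b' ⊆ Metric.thickening ε (segment ℝ a b) := by
  rintro x ⟨s, t, hs, ht, hst, rfl⟩
  rw [Metric.mem_thickening_iff]
  refine ⟨s • a + t • b, ⟨s, t, hs, ht, hst, rfl⟩, ?_⟩
  rw [dist_eq_norm]
  have e : s • a' + t • b' - (s • a + t • b) = s • (a' - a) + t • (b' - b) := by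
    simp only [smul_sub]; abel
  rw [e]
  calc ‖s • (a' - a) + t • (b' - b)‖ ≤ ‖s • (a' - a)‖ + ‖t • (b' - b)‖ := norm_add_le _ _
    _ = s * ‖a' - a‖ + t * ‖b' - b‖ := by
      rw [norm_smul, norm_smul, Real.norm_of_nonneg hs, Real.norm_of_nonneg ht]
    _ < ε := by
      rcases hs.eq_or_lt with h0 | h0
      · rw [← h0] at hst ⊢
        have : t = 1 := by linarith
        rw [this]; linarith
      · have := mul_lt_mul_of_pos_left h1 h0
        have := mul_le_mul_of_nonneg_left h2.le ht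
        have h5 : s * ε + t * ε = ε := by rw [← add_mul, hst, one_mul]
        linarith

theorem disj_eps (a b c d : E3) (h : Disjoint (segment ℝ a b) (segment ℝ c d)) :
    ∃ ε : ℝ, 0 < ε ∧ ∀ a' b' c' d' : E3, ‖a' - a‖ < ε → ‖b' - b‖ < ε → ‖c' - c‖ < ε →
      ‖d' - d‖ < ε → Disjoint (segment ℝ a' b') (segment ℝ c' d') := by
  obtain ⟨δ, hδ, hd⟩ := h.exists_thickenings (isCompact_seg a b) (isCompact_seg c d).isClosed
  exact ⟨δ, hδ, fun a' b' c' d' h1 h2 h3 h4 => hd.mono (seg_thick h1 h2) (seg_thick h3 h4)⟩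

/-- finite families -/
theorem fin_eps {ι : Type} (S : Finset ι) (Q : ι → ℝ → Prop)
    (hmono : ∀ i ε ε', 0 < ε' → ε' ≤ ε → Q i ε → Q i ε')
    (h : ∀ i ∈ S, ∃ ε : ℝ, 0 < ε ∧ Q i ε) : ∃ ε : ℝ, 0 < ε ∧ ∀ i ∈ S, Q i ε := by
  classical
  induction S using Finset.induction_on with
  | empty => exact ⟨1, one_pos, by simp⟩
  | insert a S ha ih =>
    obtain ⟨ε₁, h1, h2⟩ := ih (fun i hi => h i (Finset.mem_insert_of_mem hi))
    obtain ⟨ε₂, h3, h4⟩ := h a (Finset.mem_insert_self a S)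
    refine ⟨min ε₁ ε₂, lt_min h1 h3, fun i hi => ?_⟩
    rcases Finset.mem_insert.1 hi with rfl | hi
    · exact hmono _ _ _ (lt_min h1 h3) (min_le_right _ _) h4
    · exact hmono _ _ _ (lt_min h1 h3) (min_le_left _ _) (h2 i hi)

theorem all_eps (K : PolyKnot) : ∃ ε : ℝ, 0 < ε ∧ ∀ P' : ℤ → E3, (∀ i, P' (i + K.n) = P' i) →
    (∀ i, ‖P' i - K.P i‖ < ε) →
    (∀ i, ¬ SameRay ℝ (P' (i - 1) - P' i) (P' (i + 1) - P' i)) ∧
    (∀ i j : ℤ, i + 2 ≤ j → j + 2 ≤ i + K.n →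
      Disjoint (segment ℝ (P' i) (P' (i + 1))) (segment ℝ (P' j) (P' (j + 1)))) := by
  have hn := K.three
  obtain ⟨ε₁, h1, c1⟩ := fin_eps (Finset.range K.n)
    (fun m ε => ∀ P' : ℤ → E3, (∀ i, ‖P' i - K.P i‖ < ε) →
      ¬ SameRay ℝ (P' ((m : ℤ) - 1) - P' m) (P' ((m : ℤ) + 1) - P' m))
    (fun i ε ε' _ hle hQ P' hP' => hQ P' (fun i => (hP' i).trans_le hle))
    (fun m _ => by
      obtain ⟨ε, hε, hc⟩ := corner_eps _ _ _ (K.corner m)
      exact ⟨ε, hε, fun P' hP' => hc _ _ _ (hP' _) (hP' _) (hP' _)⟩)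
  obtain ⟨ε₂, h2, c2⟩ := fin_eps (Finset.range K.n ×ˢ Finset.range K.n)
    (fun m ε => (m.2 + 4 ≤ K.n) → ∀ P' : ℤ → E3, (∀ i, ‖P' i - K.P i‖ < ε) →
      Disjoint (segment ℝ (P' m.1) (P' ((m.1 : ℤ) + 1)))
        (segment ℝ (P' ((m.1 : ℤ) + 2 + m.2)) (P' ((m.1 : ℤ) + 2 + m.2 + 1))))
    (fun i ε ε' _ hle hQ h P' hP' => hQ h P' (fun i => (hP' i).trans_le hle))
    (fun m _ => by
      by_cases hm : m.2 + 4 ≤ K.n
      · obtain ⟨ε, hε, hc⟩ := disj_eps _ _ _ _ (K.disj m.1 ((m.1 : ℤ) + 2 + m.2) (by omega)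
          (by omega))
        exact ⟨ε, hε, fun _ P' hP' => hc _ _ _ _ (hP' _) (hP' _) (hP' _) (hP' _)⟩
      · exact ⟨1, one_pos, fun h => absurd h hm⟩)
  refine ⟨min ε₁ ε₂, lt_min h1 h2, fun P' hper hP' => ⟨fun i => ?_, fun i j hij hji => ?_⟩⟩
  · obtain ⟨q, m, hm, rfl⟩ := red hn i
    have := c1 m (Finset.mem_range.2 hm) P' (fun i => (hP' i).trans_le (min_le_left _ _))
    rw [show (m : ℤ) + q * K.n - 1 = (m - 1) + q * K.n by ring,
      show (m : ℤ) + q * K.n + 1 = (m + 1) + q * K.n by ring, per_mul hper, per_mul hper,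
      per_mul hper]
    exact this
  · obtain ⟨q, m, hm, rfl⟩ := red hn i
    obtain ⟨l, hl⟩ := Int.eq_ofNat_of_zero_le (show 0 ≤ j - ((m : ℤ) + q * K.n) - 2 by omega)
    have hj : j = (m : ℤ) + 2 + l + q * K.n := by
      linarith
    subst hj
    have hl4 : l + 4 ≤ K.n := by omega
    have := c2 (m, l) (Finset.mem_product.2 ⟨Finset.mem_range.2 hm, Finset.mem_range.2 (by
      show l < K.n
      omega)⟩) hl4 P' (fun i => (hP' i).trans_le (min_le_right _ _))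
    simp only at this
    rw [show (m : ℤ) + q * K.n + 1 = (m + 1) + q * K.n by ring,
      show (m : ℤ) + 2 + l + q * K.n + 1 = (m + 2 + l + 1) + q * K.n by ring,
      per_mul hper, per_mul hper, per_mul hper, per_mul hper]
    exact this

end SBA

open SBA

/-- SB-A. Small perturbations of the vertices give equivalent knots. -/
theorem exists_eps (K : PolyKnot) : ∃ ε : ℝ, 0 < ε ∧ ∀ P' : ℤ → E3, (∀ i, P' (i + K.n) = P' i) →
    (∀ i, ‖P' i - K.P i‖ < ε) → ∃ L : PolyKnot, L.n = K.n ∧ L.P = P' ∧ Equivalent K L := by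
  obtain ⟨ε, hε, hall⟩ := all_eps K
  refine ⟨ε, hε, fun P' hper hP' => ?_⟩
  -- the path
  set G : unitInterval → ℤ → E3 := fun t i => K.P i + (t : ℝ) • (P' i - K.P i) with hG
  have hGper : ∀ t i, G t (i + K.n) = G t i := by
    intro t i
    simp only [hG]
    rw [K.per, hper]
  have hGn : ∀ t i, ‖G t i - K.P i‖ < ε := by
    intro t i
    simp only [hG]
    rw [add_sub_cancel_left, norm_smul, Real.norm_of_nonneg t.2.1]
    calc (t : ℝ) * ‖P' i - K.P i‖ ≤ 1 * ‖P' i - K.P i‖ :=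
          mul_le_mul_of_nonneg_right t.2.2 (norm_nonneg _)
      _ < ε := by rw [one_mul]; exact hP' i
  set F : unitInterval → PolyKnot := fun t =>
    ⟨K.n, G t, K.three, hGper t, (hall (G t) (hGper t) (hGn t)).1,
      (hall (G t) (hGper t) (hGn t)).2⟩ with hF
  have hmove := Move.isotopy F K.n (fun _ => rfl) (fun i => by
    show Continuous fun t : unitInterval => K.P i + (t : ℝ) • (P' i - K.P i)
    fun_prop)
  have h0 : F 0 = K := by
    refine PolyKnot.ext' rfl ?_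
    funext i
    show K.P i + ((0 : unitInterval) : ℝ) • (P' i - K.P i) = K.P i
    simp
  have h1 : (F 1).P = P' := by
    funext i
    show K.P i + ((1 : unitInterval) : ℝ) • (P' i - K.P i) = P' i
    simp
  refine ⟨F 1, rfl, h1, ?_⟩
  rw [h0] at hmove
  exact hmove.equivalent

end Pool.Agent.helper82.SB
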