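/-
Module SB-D of the SB project (MP_f4492a_gt): a nontrivial knot has a conformation in general
position which is not worse.  helper80.
-/
import Pool.Agent.helper80.SB.A
import Pool.Agent.helper39.SB.Slide

set_option autoImplicit false

namespace Pool.Agent.helper82.SB

open Matrix Filter Topology

namespace SBD

/-- a sliding move: edge `a` becomes `e_a + t e_b`, edge `b` becomes `(1 - t) e_b` -/
theorem slide (n : ℕ) (hn : 3 ≤ n) (P : ℤ → E3) (hper : ∀ i, P (i + n) = P i) (a b : ℤ)
    (hab : b = a + 1 ∨ b = a - 1) : ∃ (c : ℤ) (P' : ℝ → ℤ → E3),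
      (∀ t i, P' t (i + n) = P' t i) ∧ (∀ t i, ¬ i ≡ c [ZMOD n] → P' t i = P i) ∧
      ((∀ t, P' t c = P c + t • (P (c + 1) - P c)) ∨
        (∀ t, P' t c = P c + t • (P (c - 1) - P c))) ∧
      (∀ t i, ‖P' t i - P i‖ ≤ |t| * ‖edge P b‖) ∧
      (∀ t i, i ≡ a [ZMOD n] → edge (P' t) i = edge P a + t • edge P b) ∧
      (∀ t i, i ≡ b [ZMOD n] → edge (P' t) i = (1 - t) • edge P b) ∧
      (∀ t i, ¬ i ≡ a [ZMOD n] → ¬ i ≡ b [ZMOD n] → edge (P' t) i = edge P i) := by
  classical
  have hone : ∀ i : ℤ, ¬ i + 1 ≡ i [ZMOD n] := by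
    intro i h
    have h2 := (Int.modEq_iff_dvd.1 h)
    rw [show i - (i + 1) = -1 by ring] at h2
    have := Int.le_of_dvd (by norm_num) ((dvd_neg).1 h2)
    omega
  have hedge : ∀ i j : ℤ, i ≡ j [ZMOD n] → P i = P j ∧ edge P i = edge P j := by
    intro i j h
    obtain ⟨q, hq⟩ := Int.modEq_iff_dvd.1 h.symm
    have e : i = j + q * n := by linarith [mul_comm (n : ℤ) q]
    have hp := SBA.per_mul hper
    refine ⟨by rw [e, hp], ?_⟩
    unfold edge
    rw [e, show j + q * (n : ℤ) + 1 = (j + 1) + q * n by ring, hp, hp]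
  -- general form
  have gen : ∀ (c : ℤ) (u : E3), ∃ P' : ℝ → ℤ → E3,
      (∀ t i, P' t (i + n) = P' t i) ∧ (∀ t i, ¬ i ≡ c [ZMOD n] → P' t i = P i) ∧
      (∀ t i, i ≡ c [ZMOD n] → P' t i = P i + t • u) := by
    intro c u
    refine ⟨fun t i => if i ≡ c [ZMOD n] then P i + t • u else P i, ?_, ?_, ?_⟩
    · intro t i
      have : (i + n ≡ c [ZMOD n]) ↔ (i ≡ c [ZMOD n]) := by
        constructor
        · intro h; exact (Int.add_modEq_right (n := (n : ℤ)) (a := i)).symm.trans h
        · intro h; exact (Int.add_modEq_right (n := (n : ℤ)) (a := i)).trans h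
      simp only [this, hper]
    · intro t i h; simp only [h, if_false]
    · intro t i h; simp only [h, if_true]
  rcases hab with rfl | rfl
  · -- vertex `a + 1` moves along the edge `a + 1`
    obtain ⟨P', p1, p2, p3⟩ := gen (a + 1) (edge P (a + 1))
    refine ⟨a + 1, P', p1, p2, Or.inl (fun t => p3 t _ rfl), ?_, ?_, ?_, ?_⟩
    · intro t i
      by_cases h : i ≡ a + 1 [ZMOD n]
      · rw [p3 t i h, add_sub_cancel_left, norm_smul, Real.norm_eq_abs]
      · rw [p2 t i h, sub_self, norm_zero]; positivity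
    · intro t i h
      have h1 : i + 1 ≡ a + 1 [ZMOD n] := h.add_right 1
      have h2 : ¬ i ≡ a + 1 [ZMOD n] := fun h' => hone i (h1.trans h'.symm)
      have e : edge (P' t) i = edge P i + t • edge P (a + 1) := by
        unfold edge
        rw [p3 t _ h1, p2 t i h2]
        unfold edge
        abel
      rw [e, (hedge i a h).2]
    · intro t i h
      have h1 : ¬ i + 1 ≡ a + 1 [ZMOD n] := fun h' => hone i (h'.trans h.symm)
      have e : edge (P' t) i = edge P i - t • edge P (a + 1) := by
        unfold edge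
        rw [p2 t _ h1, p3 t i h]
        unfold edge
        abel
      rw [e, (hedge i _ h).2, sub_smul, one_smul]
    · intro t i h h'
      have h1 : ¬ i + 1 ≡ a + 1 [ZMOD n] := fun h2 => h (Int.ModEq.add_right_cancel' 1 h2)
      unfold edge
      rw [p2 t _ h1, p2 t i h']
  · -- vertex `a` moves back along the edge `a - 1`
    obtain ⟨P', p1, p2, p3⟩ := gen a (- edge P (a - 1))
    refine ⟨a, P', p1, p2, Or.inr (fun t => ?_), ?_, ?_, ?_, ?_⟩
    · rw [p3 t _ rfl]
      unfold edge
      rw [sub_add_cancel, neg_sub]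
    · intro t i
      by_cases h : i ≡ a [ZMOD n]
      · rw [p3 t i h, add_sub_cancel_left, norm_smul, Real.norm_eq_abs, norm_neg]
      · rw [p2 t i h, sub_self, norm_zero]; positivity
    · intro t i h
      have h1 : ¬ i + 1 ≡ a [ZMOD n] := fun h' => hone i (h'.trans h.symm)
      have e : edge (P' t) i = edge P i + t • edge P (a - 1) := by
        unfold edge
        rw [p2 t _ h1, p3 t i h]
        unfold edge
        rw [smul_neg]
        abel
      rw [e, (hedge i a h).2]
    · intro t i h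
      have h1 : i + 1 ≡ a [ZMOD n] := by
        have := h.add_right 1
        rwa [sub_add_cancel] at this
      have h2 : ¬ i ≡ a [ZMOD n] := fun h' => hone i (h1.trans h'.symm)
      have e : edge (P' t) i = edge P i - t • edge P (a - 1) := by
        unfold edge
        rw [p3 t _ h1, p2 t i h2]
        unfold edge
        rw [smul_neg]
        abel
      rw [e, (hedge i _ h).2, sub_smul, one_smul]
    · intro t i h h'
      have h1 : ¬ i + 1 ≡ a [ZMOD n] := fun h2 => h' (by
        have := h2.sub_right 1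
        rwa [add_sub_cancel_right] at this)
      unfold edge
      rw [p2 t _ h1, p2 t i h]

theorem det3_swap12 (a b c : E3) : det3 b a c = - det3 a b c := by unfold det3; ring
theorem det3_swap23 (a b c : E3) : det3 a c b = - det3 a b c := by unfold det3; ring
theorem det3_self (a c : E3) : det3 a a c = 0 := by unfold det3; ring

/-- independence of three edges -/
def Ind (P : ℤ → E3) (i j k : ℤ) : Prop := det3 (edge P i) (edge P j) (edge P k) ≠ 0

theorem Ind.s12 {P : ℤ → E3} {i j k : ℤ} (h : Ind P i j k) : Ind P j i k := by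
  unfold Ind at *; rw [det3_swap12]; exact neg_ne_zero.2 h

theorem Ind.s23 {P : ℤ → E3} {i j k : ℤ} (h : Ind P i j k) : Ind P i k j := by
  unfold Ind at *; rw [det3_swap23]; exact neg_ne_zero.2 h

theorem edge_congr {n : ℕ} {P : ℤ → E3} (hper : ∀ i, P (i + n) = P i) {i j : ℤ}
    (h : i ≡ j [ZMOD n]) : edge P i = edge P j := by
  obtain ⟨q, hq⟩ := Int.modEq_iff_dvd.1 h.symm
  have e : i = j + q * n := by linarith [mul_comm (n : ℤ) q]
  have hp := SBA.per_mul hper
  unfold edge
  rw [e, show j + q * (n : ℤ) + 1 = (j + 1) + q * n by ring, hp, hp]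

theorem Ind.congr {n : ℕ} {P : ℤ → E3} (hper : ∀ i, P (i + n) = P i) {i j k i' j' k' : ℤ}
    (h : Ind P i j k) (h1 : i' ≡ i [ZMOD n]) (h2 : j' ≡ j [ZMOD n]) (h3 : k' ≡ k [ZMOD n]) :
    Ind P i' j' k' := by
  unfold Ind at *
  rwa [edge_congr hper h1, edge_congr hper h2, edge_congr hper h3]

theorem Ind.ne12 {n : ℕ} {P : ℤ → E3} (hper : ∀ i, P (i + n) = P i) {i j k : ℤ}
    (h : Ind P i j k) : ¬ i ≡ j [ZMOD n] := by
  intro hc
  apply h
  rw [edge_congr hper hc, det3_self]

theorem Ind.ne23 {n : ℕ} {P : ℤ → E3} (hper : ∀ i, P (i + n) = P i) {i j k : ℤ}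
    (h : Ind P i j k) : ¬ j ≡ k [ZMOD n] := h.s12.s23.ne12 hper

theorem Ind.ne13 {n : ℕ} {P : ℤ → E3} (hper : ∀ i, P (i + n) = P i) {i j k : ℤ}
    (h : Ind P i j k) : ¬ i ≡ k [ZMOD n] := h.s23.ne12 hper

/-- nonzero orthogonal vector if there is no independent triple -/
theorem exists_orth (e : ℤ → E3) (h0 : e 0 ≠ 0)
    (h : ∀ i j k, det3 (e i) (e j) (e k) = 0) : ∃ v : E3, v ≠ 0 ∧ ∀ k, v ⬝ᵥ e k = 0 := by
  by_cases hc : ∃ i j, crossProduct (e i) (e j) ≠ 0
  · obtain ⟨i, j, hij⟩ := hc
    exact ⟨_, hij, fun k => by rw [cross_dot]; exact h i j k⟩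
  · push Not at hc
    have h01 : ∀ k, e 0 1 * e k 2 - e 0 2 * e k 1 = 0 ∧ e 0 2 * e k 0 - e 0 0 * e k 2 = 0 ∧
        e 0 0 * e k 1 - e 0 1 * e k 0 = 0 := by
      intro k
      have := hc 0 k
      rw [cross_apply] at this
      refine ⟨?_, ?_, ?_⟩
      · simpa using congrFun this 0
      · simpa using congrFun this 1
      · simpa using congrFun this 2
    by_cases hz : e 0 0 = 0 ∧ e 0 1 = 0
    · refine ⟨![1, 0, 0], ?_, ?_⟩
      · intro hh; simpa using congrFun hh 0
      · intro k
        rw [dot_expand]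
        have h2 : e 0 2 ≠ 0 := by
          intro h3
          apply h0
          funext i
          fin_cases i
          · exact hz.1
          · exact hz.2
          · exact h3
        have := (h01 k).2.1
        rw [hz.1] at this
        have h4 : e k 0 = 0 := by
          have : e 0 2 * e k 0 = 0 := by linarith
          exact (mul_eq_zero.1 this).resolve_left h2
        simp [h4]
    · refine ⟨![e 0 1, - e 0 0, 0], ?_, ?_⟩
      · intro hh
        apply hz
        constructor
        · simpa using congrFun hh 1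
        · simpa using congrFun hh 0
      · intro k
        rw [dot_expand]
        have := (h01 k).2.2
        simp
        linarith

/-- combinatorics: one independent triple gives all -/
theorem all_ind {n : ℕ} (hn : 4 ≤ n) {P : ℤ → E3} (hper : ∀ i, P (i + n) = P i)
    (hstep : ∀ a b j k : ℤ, (b = a + 1 ∨ b = a - 1) → ¬ a ≡ j [ZMOD n] → ¬ a ≡ k [ZMOD n] →
      Ind P b j k → Ind P a j k)
    (i₀ j₀ k₀ : ℤ) (h0 : Ind P i₀ j₀ k₀) (i j k : ℤ) (hij : i < j) (hjk : j < k) (hki : k < i + n) :
    Ind P i j k := by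
  have hn0 : (0 : ℤ) < n := by omega
  -- incongruence from inequalities
  have inc : ∀ x y : ℤ, x < y → y < x + n → ¬ x ≡ y [ZMOD n] := by
    intro x y h1 h2 h3
    have h4 := Int.modEq_iff_dvd.1 h3
    have := Int.le_of_dvd (by linarith) h4
    linarith
  -- steps in the other positions
  have step1 := hstep
  have step2 : ∀ a b j k : ℤ, (b = a + 1 ∨ b = a - 1) → ¬ a ≡ j [ZMOD n] → ¬ a ≡ k [ZMOD n] →
      Ind P j b k → Ind P j a k := fun a b j k h1 h2 h3 h4 => (hstep a b j k h1 h2 h3 h4.s12).s12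
  have step3 : ∀ a b j k : ℤ, (b = a + 1 ∨ b = a - 1) → ¬ a ≡ j [ZMOD n] → ¬ a ≡ k [ZMOD n] →
      Ind P j k b → Ind P j k a := fun a b j k h1 h2 h3 h4 => (step2 a b j k h1 h2 h3 h4.s23).s23
  -- normalise
  have norm : ∃ i j k : ℤ, i < j ∧ j < k ∧ k < i + n ∧ Ind P i j k := by
    -- representatives in [i₀, i₀ + n)
    have rep : ∀ x : ℤ, ∃ y : ℤ, i₀ ≤ y ∧ y < i₀ + n ∧ y ≡ x [ZMOD n] := by
      intro x
      refine ⟨i₀ + (x - i₀) % n, by have := Int.emod_nonneg (x - i₀) hn0.ne'; linarith,
        by have := Int.emod_lt_of_pos (x - i₀) hn0; linarith, ?_⟩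
      have := (Int.mod_modEq (x - i₀) n).add_left i₀
      rwa [add_sub_cancel] at this
    obtain ⟨y, y1, y2, y3⟩ := rep j₀
    obtain ⟨z, z1, z2, z3⟩ := rep k₀
    have h1 : Ind P i₀ y z := h0.congr hper rfl y3 z3
    have hy : y ≠ i₀ := fun h => h1.ne12 hper (by rw [h])
    have hz : z ≠ i₀ := fun h => h1.ne13 hper (by rw [h])
    have hyz : y ≠ z := fun h => h1.ne23 hper (by rw [h])
    rcases lt_or_gt_of_ne hyz with h | h
    · exact ⟨i₀, y, z, lt_of_le_of_ne y1 hy.symm, h, z2, h1⟩
    · exact ⟨i₀, z, y, lt_of_le_of_ne z1 hz.symm, h, y2, h1.s23⟩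
  obtain ⟨i₁, j₁, k₁, a1, a2, a3, a4⟩ := norm
  -- push the middle down
  have down2 : ∀ m : ℕ, ∀ i j k : ℤ, j = i + 1 + m → j < k → k < i + n → Ind P i j k →
      Ind P i (i + 1) k := by
    intro m
    induction m with
    | zero => intro i j k h1 _ _ h4; rw [h1] at h4; simpa using h4
    | succ m ih =>
      intro i j k h1 h2 h3 h4
      push_cast at h1
      refine ih i (j - 1) k (by omega) (by omega) h3 ?_
      exact step2 (j - 1) j i k (Or.inl (by ring)) (fun h => inc i (j - 1) (by omega) (by omega) h.symm)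
        (inc (j - 1) k (by omega) (by omega)) h4
  have down3 : ∀ m : ℕ, ∀ i k : ℤ, k = i + 2 + m → k < i + n → Ind P i (i + 1) k →
      Ind P i (i + 1) (i + 2) := by
    intro m
    induction m with
    | zero => intro i k h1 _ h4; rw [h1] at h4; simpa using h4
    | succ m ih =>
      intro i k h1 h3 h4
      push_cast at h1
      refine ih i (k - 1) (by omega) (by omega) ?_
      exact step3 (k - 1) k i (i + 1) (Or.inl (by ring))
        (fun h => inc i (k - 1) (by omega) (by omega) h.symm)
        (fun h => inc (i + 1) (k - 1) (by omega) (by omega) h.symm) h4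
  have Q0 : Ind P i₁ (i₁ + 1) (i₁ + 2) := by
    have h1 := down2 (j₁ - i₁ - 1).toNat i₁ j₁ k₁ (by omega) a2 a3 a4
    exact down3 (k₁ - i₁ - 2).toNat i₁ k₁ (by omega) a3 h1
  have Qs : ∀ i : ℤ, Ind P i (i + 1) (i + 2) → Ind P (i + 1) (i + 1 + 1) (i + 1 + 2) := by
    intro i h
    have h1 : Ind P i (i + 1) (i + 3) := step3 (i + 3) (i + 2) i (i + 1) (Or.inr (by ring))
      (fun h => inc i (i + 3) (by omega) (by omega) h.symm)
      (fun h => inc (i + 1) (i + 3) (by omega) (by omega) h.symm) h
    have h2 : Ind P i (i + 2) (i + 3) := step2 (i + 2) (i + 1) i (i + 3) (Or.inr (by ring))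
      (fun h => inc i (i + 2) (by omega) (by omega) h.symm)
      (inc (i + 2) (i + 3) (by omega) (by omega)) h1
    have h3 : Ind P (i + 1) (i + 2) (i + 3) := step1 (i + 1) i (i + 2) (i + 3) (Or.inr (by ring))
      (inc (i + 1) (i + 2) (by omega) (by omega))
      (inc (i + 1) (i + 3) (by omega) (by omega)) h2
    rw [show i + 1 + 1 = i + 2 by ring, show i + 1 + 2 = i + 3 by ring]
    exact h3
  have Qn : ∀ m : ℕ, Ind P (i₁ + m) (i₁ + m + 1) (i₁ + m + 2) := by
    intro m
    induction m with
    | zero => simpa using Q0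
    | succ m ih =>
      have := Qs _ ih
      push_cast
      rw [show i₁ + ((m : ℤ) + 1) = i₁ + m + 1 by ring]
      exact this
  have Q : ∀ i : ℤ, Ind P i (i + 1) (i + 2) := by
    intro i
    have h1 := Qn (i - i₁ + n * |i - i₁|).toNat
    have h2 : 0 ≤ i - i₁ + n * |i - i₁| := by
      have := neg_abs_le (i - i₁)
      have : |i - i₁| ≤ n * |i - i₁| := by
        have := abs_nonneg (i - i₁)
        nlinarith
      linarith
    rw [Int.toNat_of_nonneg h2] at h1
    have e : ∀ x : ℤ, i + x ≡ i₁ + (i - i₁ + n * |i - i₁|) + x [ZMOD n] := by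
      intro x
      rw [show i₁ + (i - i₁ + n * |i - i₁|) + x = i + x + n * |i - i₁| by ring]
      exact (Int.modEq_iff_dvd.2 ⟨|i - i₁|, by ring⟩)
    refine h1.congr hper ?_ (e 1) (e 2)
    have := e 0
    simpa using this
  -- push up
  have up3 : ∀ m : ℕ, ∀ k : ℤ, k = i + 2 + m → k < i + n → Ind P i (i + 1) k := by
    intro m
    induction m with
    | zero => intro k h1 _; rw [h1]; simpa using Q i
    | succ m ih =>
      intro k h1 h3
      push_cast at h1
      have h4 := ih (k - 1) (by omega) (by omega)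
      exact step3 k (k - 1) i (i + 1) (Or.inr (by ring))
        (fun h => inc i k (by omega) (by omega) h.symm)
        (fun h => inc (i + 1) k (by omega) (by omega) h.symm) h4
  have h5 := up3 (k - i - 2).toNat k (by omega) hki
  have up2 : ∀ m : ℕ, ∀ j : ℤ, j = i + 1 + m → j < k → Ind P i j k := by
    intro m
    induction m with
    | zero => intro j h1 _; rw [h1]; simpa using h5
    | succ m ih =>
      intro j h1 h3
      push_cast at h1
      have h4 := ih (j - 1) (by omega) (by omega)
      exact step2 j (j - 1) i k (Or.inr (by ring))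
        (fun h => inc i j (by omega) (by omega) h.symm)
        (inc j k (by omega) (by omega)) h4
  exact up2 (j - i - 1).toNat j (by omega) hjk

open scoped Classical in
/-- independent triples of representatives -/
noncomputable def T (n : ℕ) (P : ℤ → E3) : Finset (ℕ × ℕ × ℕ) :=
  (Finset.range n ×ˢ Finset.range n ×ˢ Finset.range n).filter
    (fun x => Ind P x.1 x.2.1 x.2.2)

end SBD

open SBD

/-- SB-D. A nontrivial knot has a conformation in general position which is not worse. -/
theorem exists_gen (K : PolyKnot) (hK : ¬ Trivial K) (M : ℕ)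
    (hM : ∀ v, maxima K.n K.P v ≤ M) :
    ∃ L : PolyKnot, Equivalent K L ∧ 4 ≤ L.n ∧ Gen L.n L.P ∧ ∀ v, maxima L.n L.P v ≤ M := by
  classical
  -- the extremal conformation
  set S : Set ℕ := {c | ∃ L : PolyKnot, Equivalent K L ∧ L.n = K.n ∧
    (∀ v, maxima L.n L.P v ≤ M) ∧ c = (T L.n L.P).card} with hS
  have hSne : S.Nonempty := ⟨_, K, Equivalent.refl K, rfl, hM, rfl⟩
  have hSb : BddAbove S := by
    refine ⟨K.n * (K.n * K.n), ?_⟩
    rintro c ⟨L, -, hn, -, rfl⟩
    calc (T L.n L.P).card ≤ (Finset.range L.n ×ˢ Finset.range L.n ×ˢ Finset.range L.n).card :=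
          Finset.card_filter_le _ _
      _ = K.n * (K.n * K.n) := by simp [hn]
  obtain ⟨L, hL1, hL2, hL3, hL4⟩ := Nat.sSup_mem hSne hSb
  have hmax : ∀ L' : PolyKnot, Equivalent K L' → L'.n = K.n → (∀ v, maxima L'.n L'.P v ≤ M) →
      (T L'.n L'.P).card ≤ (T L.n L.P).card := by
    intro L' h1 h2 h3
    rw [← hL4]
    exact le_csSup hSb ⟨L', h1, h2, h3, rfl⟩
  have hn3 := L.three
  have hper := L.per
  -- the step
  have hstep : ∀ a b j k : ℤ, (b = a + 1 ∨ b = a - 1) → ¬ a ≡ j [ZMOD L.n] →
      ¬ a ≡ k [ZMOD L.n] → Ind L.P b j k → Ind L.P a j k := by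
    intro a b j k hab haj hak hb
    by_contra hcon
    have hzero : det3 (edge L.P a) (edge L.P j) (edge L.P k) = 0 := not_not.1 hcon
    obtain ⟨c, P', p1, p2, p3, p4, p5, p6, p7⟩ := slide L.n hn3 L.P hper a b hab
    obtain ⟨ε, hε, hper'⟩ := exists_eps L
    have hbj : ¬ j ≡ b [ZMOD L.n] := fun h => hb.ne12 hper h.symm
    have hbk : ¬ k ≡ b [ZMOD L.n] := fun h => hb.ne13 hper h.symm
    -- every edge depends continuously on `t`
    have hcont : ∀ i : ℤ, Continuous (fun t => edge (P' t) i) := by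
      intro i
      by_cases h1 : i ≡ a [ZMOD L.n]
      · have : (fun t => edge (P' t) i) = fun t => edge L.P a + t • edge L.P b := by
          funext t; exact p5 t i h1
        rw [this]; fun_prop
      · by_cases h2 : i ≡ b [ZMOD L.n]
        · have : (fun t => edge (P' t) i) = fun t : ℝ => (1 - t) • edge L.P b := by
            funext t; exact p6 t i h2
          rw [this]; fun_prop
        · have : (fun t => edge (P' t) i) = fun _ => edge L.P i := by
            funext t; exact p7 t i h1 h2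
          rw [this]; fun_prop
    have hzeroP : ∀ i, edge (P' 0) i = edge L.P i := by
      intro i
      have h1 : ∀ i, P' 0 i = L.P i := by
        intro i
        have := p4 0 i
        rw [abs_zero, zero_mul] at this
        exact sub_eq_zero.1 (norm_le_zero_iff.1 this)
      unfold edge
      rw [h1, h1]
    have hdetc : ∀ i j k : ℤ, Continuous (fun t => det3 (edge (P' t) i) (edge (P' t) j)
        (edge (P' t) k)) := by
      intro i j k
      have h1 := hcont i
      have h2 := hcont j
      have h3 := hcont k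
      unfold det3
      have g1 : ∀ m : Fin 3, Continuous fun t => edge (P' t) i m := fun m =>
        (continuous_apply m).comp h1
      have g2 : ∀ m : Fin 3, Continuous fun t => edge (P' t) j m := fun m =>
        (continuous_apply m).comp h2
      have g3 : ∀ m : Fin 3, Continuous fun t => edge (P' t) k m := fun m =>
        (continuous_apply m).comp h3
      have := g1 0
      have := g1 1
      have := g1 2
      have := g2 0
      have := g2 1
      have := g2 2
      have := g3 0
      have := g3 1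
      have := g3 2
      fun_prop
    have hev : ∀ᶠ t in 𝓝[>] (0 : ℝ), ∀ x ∈ T L.n L.P, Ind (P' t) x.1 x.2.1 x.2.2 := by
      rw [Filter.eventually_all_finset]
      intro x hx
      have hx' : Ind L.P x.1 x.2.1 x.2.2 := (Finset.mem_filter.1 hx).2
      apply nhdsWithin_le_nhds
      have h1 := (hdetc x.1 x.2.1 x.2.2).continuousAt (x := 0)
      have h2 : det3 (edge (P' 0) x.1) (edge (P' 0) x.2.1) (edge (P' 0) x.2.2) ≠ 0 := by
        rw [hzeroP, hzeroP, hzeroP]; exact hx'
      exact h1.eventually_ne h2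
    have hev2 : ∀ᶠ t in 𝓝[>] (0 : ℝ), 0 < t ∧ t ≤ 1 ∧ |t| * ‖edge L.P b‖ < ε := by
      have h1 : ∀ᶠ t in 𝓝[>] (0 : ℝ), 0 < t := eventually_mem_nhdsWithin
      have h2 : ∀ᶠ t in 𝓝[>] (0 : ℝ), t ≤ 1 :=
        nhdsWithin_le_nhds (eventually_le_nhds one_pos)
      have h3 : ∀ᶠ t in 𝓝[>] (0 : ℝ), |t| * ‖edge L.P b‖ < ε := by
        apply nhdsWithin_le_nhds
        have hc : Continuous fun t : ℝ => |t| * ‖edge L.P b‖ := by fun_prop
        have := hc.continuousAt (x := 0)
        exact this.eventually_lt_const (by simpa using hε)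
      filter_upwards [h1, h2, h3] with t a b c using ⟨a, b, c⟩
    obtain ⟨t, ht1, ht2, ht3, ht4⟩ := (hev.and hev2).exists
    obtain ⟨L', q1, q2, q3⟩ := hper' (P' t) (p1 t) (fun i => (p4 t i).trans_lt ht4)
    have hb1 : ∀ v, maxima L'.n L'.P v ≤ M := by
      rw [q1, q2]
      intro v
      refine bound_slide L.n hn3 L.P (P' t) hper (p1 t) c (edge_ne_zero L _)
        (edge_ne_zero L _) t ht2.le ht3 (p2 t) ?_ M hL3 v
      rcases p3 with h | h
      · exact Or.inl (h t)
      · exact Or.inr (h t)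
    have hcard := hmax L' (hL1.trans q3) (by rw [q1, hL2]) hb1
    rw [q1, q2] at hcard
    have hsub : T L.n L.P ⊆ T L.n (P' t) := by
      intro x hx
      exact Finset.mem_filter.2 ⟨(Finset.mem_filter.1 hx).1, ht1 x hx⟩
    have heq := Finset.eq_of_subset_of_card_le hsub hcard
    -- the new triple
    have hnew : Ind (P' t) a j k := by
      unfold Ind
      rw [p5 t a rfl, p7 t j (fun h => haj h.symm) hbj, p7 t k (fun h => hak h.symm) hbk]
      have : det3 (edge L.P a + t • edge L.P b) (edge L.P j) (edge L.P k)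
          = det3 (edge L.P a) (edge L.P j) (edge L.P k)
            + t * det3 (edge L.P b) (edge L.P j) (edge L.P k) := by
        unfold det3
        simp only [Pi.add_apply, Pi.smul_apply, smul_eq_mul]
        ring
      rw [this, hzero, zero_add]
      exact mul_ne_zero ht2.ne' hb
    obtain ⟨qa, ma, hma, ea⟩ := SBA.red hn3 a
    obtain ⟨qj, mj, hmj, ej⟩ := SBA.red hn3 j
    obtain ⟨qk, mk, hmk, ek⟩ := SBA.red hn3 k
    have cong : ∀ (x : ℤ) (q : ℤ) (m : ℕ), x = m + q * L.n → (m : ℤ) ≡ x [ZMOD L.n] := by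
      intro x q m h
      rw [h]
      exact Int.modEq_iff_dvd.2 ⟨q, by ring⟩
    have hmem : (ma, mj, mk) ∈ T L.n (P' t) := by
      refine Finset.mem_filter.2 ⟨by simp [hma, hmj, hmk], ?_⟩
      exact hnew.congr (p1 t) (cong _ _ _ ea) (cong _ _ _ ej) (cong _ _ _ ek)
    rw [← heq] at hmem
    have hI := (Finset.mem_filter.1 hmem).2
    exact hcon (hI.congr hper (cong _ _ _ ea).symm (cong _ _ _ ej).symm (cong _ _ _ ek).symm)
  -- there is an independent triple
  have hex : ∃ i j k : ℤ, Ind L.P i j k := by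
    by_contra hno
    push Not at hno
    apply hK
    obtain ⟨v, hv0, hv⟩ := exists_orth (fun i => edge L.P i) (edge_ne_zero L 0)
      (fun i j k => not_not.1 (hno i j k))
    refine ⟨L, hL1, v, hv0, ?_⟩
    have h1 : ∀ i : ℤ, v ⬝ᵥ L.P (i + 1) = v ⬝ᵥ L.P i := by
      intro i
      have := hv i
      unfold edge at this
      rw [dotProduct_sub] at this
      linarith
    have h2 : ∀ i : ℤ, v ⬝ᵥ L.P i = v ⬝ᵥ L.P 0 := by
      intro i
      induction i using Int.induction_on with
      | zero => rfl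
      | succ i ih => rw [h1, ih]
      | pred i ih =>
        have := h1 (-(i : ℤ) - 1)
        rw [sub_add_cancel] at this
        rw [← this, ih]
    intro i j
    rw [h2 i, h2 j]
  obtain ⟨i₀, j₀, k₀, h0⟩ := hex
  have hn4 : 4 ≤ L.n := by
    by_contra hlt
    have h3 : L.n = 3 := by omega
    have hsum : ∀ i : ℤ, edge L.P i + edge L.P (i + 1) + edge L.P (i + 2) = 0 := by
      intro i
      unfold edge
      have := hper i
      rw [h3] at this
      rw [show i + 2 + 1 = i + (3 : ℕ) by push_cast; ring, this,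
        show i + 1 + 1 = i + 2 by ring]
      abel
    -- residues of i₀, j₀, k₀ modulo 3 are all different
    have h12 := h0.ne12 hper
    have h13 := h0.ne13 hper
    have h23 := h0.ne23 hper
    rw [h3] at h12 h13 h23
    simp only [Int.ModEq] at h12 h13 h23
    push_cast at h12 h13 h23
    have hcase : (j₀ ≡ i₀ + 1 [ZMOD L.n] ∧ k₀ ≡ i₀ + 2 [ZMOD L.n]) ∨
        (k₀ ≡ i₀ + 1 [ZMOD L.n] ∧ j₀ ≡ i₀ + 2 [ZMOD L.n]) := by
      rw [h3]
      simp only [Int.ModEq]
      push_cast
      omega
    have key : Ind L.P i₀ (i₀ + 1) (i₀ + 2) := by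
      rcases hcase with ⟨h1, h2⟩ | ⟨h1, h2⟩
      · exact h0.congr hper rfl h1.symm h2.symm
      · exact h0.s23.congr hper rfl h1.symm h2.symm
    apply key
    have h5 := hsum i₀
    have e0 := congrFun h5 0
    have e1 := congrFun h5 1
    have e2 := congrFun h5 2
    simp only [Pi.add_apply, Pi.zero_apply] at e0 e1 e2
    have f0 : edge L.P (i₀ + 2) 0 = - edge L.P i₀ 0 - edge L.P (i₀ + 1) 0 := by linarith
    have f1 : edge L.P (i₀ + 2) 1 = - edge L.P i₀ 1 - edge L.P (i₀ + 1) 1 := by linarith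
    have f2 : edge L.P (i₀ + 2) 2 = - edge L.P i₀ 2 - edge L.P (i₀ + 1) 2 := by linarith
    unfold det3
    rw [f0, f1, f2]
    ring
  refine ⟨L, hL1, hn4, ?_, hL3⟩
  intro i j k hij hjk hki
  exact all_ind hn4 hper hstep i₀ j₀ k₀ h0 i j k hij hjk hki

end Pool.Agent.helper82.SB
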